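import Pool.Agent.Helper75.PM.Stm

/-! # The integral of the Green function of one zero -/

set_option autoImplicit false

open Complex Filter Topology MeasureTheory

namespace Pool.Agent.Helper18.PM

open Pool.Agent.Helper75.PM

lemma arctan_le' {y : ℝ} (hy : 0 ≤ y) : Real.arctan y ≤ y := by
  rcases lt_or_ge y (Real.pi / 2) with h | h
  · have h1 := Real.le_tan hy h
    have h2 := Real.arctan_strictMono.monotone h1
    rwa [Real.arctan_tan (by linarith [Real.pi_pos]) h] at h2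
  · exact (Real.arctan_lt_pi_div_two y).le.trans h

lemma arctan_ge' {x : ℝ} (hx : 0 < x) : Real.pi / 2 - 1 / x ≤ Real.arctan x := by
  have h1 := Real.arctan_inv_of_pos hx
  have h2 := arctan_le' (inv_nonneg.2 hx.le)
  rw [h1] at h2
  rw [one_div]
  linarith

lemma sq1 (a t : ℝ) (ρ : ℂ) : ‖1 / 2 + (a : ℂ) + (t : ℂ) * I - (1 - starRingEnd ℂ ρ)‖ ^ 2 =
    (a + (ρ.re - 1 / 2)) ^ 2 + (t - ρ.im) ^ 2 := by
  rw [Complex.sq_norm, Complex.normSq_apply]
  simp
  ring

lemma sq2 (a t : ℝ) (ρ : ℂ) : ‖1 / 2 + (a : ℂ) + (t : ℂ) * I - ρ‖ ^ 2 =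
    (a - (ρ.re - 1 / 2)) ^ 2 + (t - ρ.im) ^ 2 := by
  rw [Complex.sq_norm, Complex.normSq_apply]
  simp
  ring

theorem gr : S_gr := by
  intro a κ ha hκ
  have ha0 : 0 < a := by linarith
  refine ⟨4 * a / κ, by positivity, fun ρ A B hρ1 hρ2 hA hB => ?_⟩
  set H : ℝ := 4 * a / κ with hH
  have hH0 : 0 < H := by positivity
  set b : ℝ := ρ.re - 1 / 2 with hb
  have hb0 : 0 < b := by linarith
  have hb1 : b ≤ 1 / 2 := by linarith
  have hAB : A ≤ B := by linarith
  have hn1 : ∀ t : ℝ, ‖1 / 2 + (a : ℂ) + (t : ℂ) * I - (1 - starRingEnd ℂ ρ)‖ ≠ 0 := by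
    intro t h
    have h1 := sq1 a t ρ
    rw [h] at h1
    have h2 : 0 < a + b := by linarith
    nlinarith [sq_nonneg (t - ρ.im)]
  have hn2 : ∀ t : ℝ, ‖1 / 2 + (a : ℂ) + (t : ℂ) * I - ρ‖ ≠ 0 := by
    intro t h
    have h1 := sq2 a t ρ
    rw [h] at h1
    have h2 : 0 < a - b := by linarith
    nlinarith [sq_nonneg (t - ρ.im)]
  have hcont : Continuous fun t : ℝ => Real.log (‖1 / 2 + (a : ℂ) + (t : ℂ) * I -
      (1 - starRingEnd ℂ ρ)‖ / ‖1 / 2 + (a : ℂ) + (t : ℂ) * I - ρ‖) := by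
    refine Continuous.log ?_ fun t => div_ne_zero (hn1 t) (hn2 t)
    refine Continuous.div ?_ ?_ hn2
    · fun_prop
    · fun_prop
  refine ⟨hcont.intervalIntegrable _ _, ?_⟩
  set g : ℝ → ℝ := fun t => 2 * a * b / ((a + b) ^ 2 + (t - ρ.im) ^ 2) with hg
  have hden : ∀ t : ℝ, 0 < (a + b) ^ 2 + (t - ρ.im) ^ 2 := fun t => by positivity
  have hgc : Continuous g := by
    rw [hg]
    refine Continuous.div continuous_const (by fun_prop) fun t => (hden t).ne'
  have hmono : ∫ t in A..B, g t ≤ ∫ t in A..B, Real.log (‖1 / 2 + (a : ℂ) + (t : ℂ) * I -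
      (1 - starRingEnd ℂ ρ)‖ / ‖1 / 2 + (a : ℂ) + (t : ℂ) * I - ρ‖) := by
    refine intervalIntegral.integral_mono_on hAB (hgc.intervalIntegrable _ _)
      (hcont.intervalIntegrable _ _) fun t _ => ?_
    have hx : 0 < ‖1 / 2 + (a : ℂ) + (t : ℂ) * I - (1 - starRingEnd ℂ ρ)‖ :=
      lt_of_le_of_ne (norm_nonneg _) (hn1 t).symm
    have hy : 0 < ‖1 / 2 + (a : ℂ) + (t : ℂ) * I - ρ‖ :=
      lt_of_le_of_ne (norm_nonneg _) (hn2 t).symm
    set x := ‖1 / 2 + (a : ℂ) + (t : ℂ) * I - (1 - starRingEnd ℂ ρ)‖ with hxd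
    set y := ‖1 / 2 + (a : ℂ) + (t : ℂ) * I - ρ‖ with hyd
    have h1 : x ^ 2 = (a + b) ^ 2 + (t - ρ.im) ^ 2 := sq1 a t ρ
    have h2 : y ^ 2 = (a - b) ^ 2 + (t - ρ.im) ^ 2 := sq2 a t ρ
    have h3 := Real.one_sub_inv_le_log_of_pos (x := (x / y) ^ 2) (by positivity)
    rw [Real.log_pow] at h3
    push_cast at h3
    have h4 : 1 - ((x / y) ^ 2)⁻¹ = 2 * g t := by
      rw [hg]
      simp only
      rw [← h1, div_pow, inv_div, eq_comm]
      rw [show 2 * (2 * a * b / x ^ 2) = (4 * a * b) / x ^ 2 by ring,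
        eq_sub_iff_add_eq, ← add_div, div_eq_one_iff_eq (by positivity), h1, h2]
      ring
    rw [h4] at h3
    linarith
  refine le_trans ?_ hmono
  have hder : ∀ t : ℝ, HasDerivAt (fun t => 2 * a * b / (a + b) * Real.arctan ((t - ρ.im) / (a + b)))
      (g t) t := by
    intro t
    have h1 : HasDerivAt (fun t : ℝ => (t - ρ.im) / (a + b)) (1 / (a + b)) t :=
      ((hasDerivAt_id t).sub_const ρ.im).div_const (a + b)
    have h2 := (h1.arctan).const_mul (2 * a * b / (a + b))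
    refine h2.congr_deriv ?_
    rw [hg]
    simp only
    have h3 : a + b ≠ 0 := by positivity
    have h4 := (hden t).ne'
    have h5 : 1 + ((t - ρ.im) / (a + b)) ^ 2 = ((a + b) ^ 2 + (t - ρ.im) ^ 2) / (a + b) ^ 2 := by
      field_simp
    rw [h5]
    field_simp
  rw [intervalIntegral.integral_eq_sub_of_hasDerivAt (fun t _ => hder t)
    (hgc.intervalIntegrable _ _)]
  have hab : 0 < a + b := by positivity
  have e1 : Real.pi / 2 - (a + b) / H ≤ Real.arctan ((B - ρ.im) / (a + b)) := by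
    refine le_trans ?_ (Real.arctan_strictMono.monotone
      (div_le_div_of_nonneg_right (show H ≤ B - ρ.im by linarith) hab.le))
    have := arctan_ge' (x := H / (a + b)) (by positivity)
    rwa [one_div_div] at this
  have e2 : Real.arctan ((A - ρ.im) / (a + b)) ≤ -(Real.pi / 2 - (a + b) / H) := by
    have h1 : Real.arctan ((A - ρ.im) / (a + b)) = -Real.arctan ((ρ.im - A) / (a + b)) := by
      rw [← Real.arctan_neg]
      congr 1
      ring
    rw [h1]
    apply neg_le_neg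
    refine le_trans ?_ (Real.arctan_strictMono.monotone
      (div_le_div_of_nonneg_right (show H ≤ ρ.im - A by linarith) hab.le))
    have := arctan_ge' (x := H / (a + b)) (by positivity)
    rwa [one_div_div] at this
  have hc : 0 < 2 * a * b / (a + b) := by positivity
  have e3 : 2 * a * b / (a + b) * (Real.pi - 2 * ((a + b) / H)) ≤
      2 * a * b / (a + b) * Real.arctan ((B - ρ.im) / (a + b)) -
        2 * a * b / (a + b) * Real.arctan ((A - ρ.im) / (a + b)) := by
    rw [← mul_sub]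
    exact mul_le_mul_of_nonneg_left (by linarith) hc.le
  refine le_trans ?_ e3
  have e4 : 2 * a * b / (a + b) * (Real.pi - 2 * ((a + b) / H)) =
      2 * Real.pi * a * b / (a + b) - κ * b := by
    rw [hH]
    field_simp
    ring
  rw [e4]
  have e5 : 2 * Real.pi * a * b / (a + 1 / 2) ≤ 2 * Real.pi * a * b / (a + b) := by
    have hpi := Real.pi_pos
    exact div_le_div_of_nonneg_left (by positivity) hab (by linarith)
  have e6 : (2 * Real.pi * a / (a + 1 / 2) - κ) * b =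
      2 * Real.pi * a * b / (a + 1 / 2) - κ * b := by ring
  rw [e6]
  linarith

end Pool.Agent.Helper18.PM
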