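import Pool.Agent.Helper75.PM.Stm

/-! # Concavity of the logarithm -/

set_option autoImplicit false

open Filter Topology MeasureTheory

namespace Pool.Agent.Helper18.PM

open Pool.Agent.Helper75.PM

lemma posLog_le' {y : ℝ} (hy : 0 ≤ y) : Real.posLog y ≤ 1 / 2 * Real.log (1 + y ^ 2) := by
  rw [Real.posLog]
  apply max_le
  · have := Real.log_nonneg (show (1 : ℝ) ≤ 1 + y ^ 2 by nlinarith [sq_nonneg y])
    positivity
  · rcases hy.eq_or_lt with h | h
    · rw [← h]
      simp
    · have h1 : Real.log y = 1 / 2 * Real.log (y ^ 2) := by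
        rw [Real.log_pow]
        push_cast
        ring
      rw [h1]
      have := Real.log_le_log (show 0 < y ^ 2 by positivity) (show y ^ 2 ≤ 1 + y ^ 2 by linarith)
      linarith

theorem jen : S_jen := by
  intro A B e h hAB he hh hh0
  have hBA : 0 < B - A := by linarith
  have hc1 : Continuous fun x => 1 + (h x / e) ^ 2 := by fun_prop
  have hpos : ∀ x, 0 < 1 + (h x / e) ^ 2 := fun x => by positivity
  have hc2 : Continuous fun x => Real.log (1 + (h x / e) ^ 2) :=
    hc1.log fun x => (hpos x).ne'
  have hc0 : Continuous fun x => Real.posLog (h x / e) :=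
    Real.continuous_posLog.comp (by fun_prop)
  set J : ℝ := ∫ x in A..B, h x ^ 2 with hJ
  have hJ0 : 0 ≤ J := intervalIntegral.integral_nonneg hAB.le fun x _ => by positivity
  set M : ℝ := 1 + J / (e ^ 2 * (B - A)) with hM
  have hM0 : 0 < M := by positivity
  have h1 : ∫ x in A..B, Real.posLog (h x / e) ≤
      ∫ x in A..B, 1 / 2 * Real.log (1 + (h x / e) ^ 2) :=
    intervalIntegral.integral_mono_on hAB.le (hc0.intervalIntegrable _ _)
      ((continuous_const.mul hc2).intervalIntegrable _ _) fun x _ =>
        posLog_le' (div_nonneg (hh0 x) he.le)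
  have hint : ∫ x in A..B, (1 + (h x / e) ^ 2) = (B - A) * M := by
    rw [intervalIntegral.integral_add intervalIntegrable_const
      ((Continuous.intervalIntegrable (by fun_prop) _ _))]
    have h2 : ∫ x in A..B, (h x / e) ^ 2 = J / e ^ 2 := by
      rw [hJ, ← intervalIntegral.integral_div]
      congr 1
      funext x
      rw [div_pow]
    rw [h2, intervalIntegral.integral_const, hM]
    simp only [smul_eq_mul, mul_one]
    field_simp
  have h3 : ∫ x in A..B, Real.log (1 + (h x / e) ^ 2) ≤
      ∫ x in A..B, (Real.log M + ((1 + (h x / e) ^ 2) * M⁻¹ - 1)) := by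
    refine intervalIntegral.integral_mono_on hAB.le (hc2.intervalIntegrable _ _)
      (Continuous.intervalIntegrable (by fun_prop) _ _) fun x _ => ?_
    have h4 := Real.log_le_sub_one_of_pos (show 0 < (1 + (h x / e) ^ 2) * M⁻¹ from
      mul_pos (hpos x) (inv_pos.2 hM0))
    rw [Real.log_mul (hpos x).ne' (inv_ne_zero hM0.ne'), Real.log_inv] at h4
    linarith
  have h5 : ∫ x in A..B, (Real.log M + ((1 + (h x / e) ^ 2) * M⁻¹ - 1)) = (B - A) * Real.log M := by
    rw [intervalIntegral.integral_add intervalIntegrable_const
      (Continuous.intervalIntegrable (by fun_prop) _ _),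
      intervalIntegral.integral_sub (Continuous.intervalIntegrable (by fun_prop) _ _)
        intervalIntegrable_const, intervalIntegral.integral_mul_const, hint,
      intervalIntegral.integral_const, intervalIntegral.integral_const]
    simp only [smul_eq_mul, mul_one]
    field_simp
    ring
  rw [h5] at h3
  refine h1.trans ?_
  rw [intervalIntegral.integral_const_mul]
  calc 1 / 2 * ∫ x in A..B, Real.log (1 + (h x / e) ^ 2) ≤ 1 / 2 * ((B - A) * Real.log M) := by
        linarith
    _ = (B - A) / 2 * Real.log M := by ring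

end Pool.Agent.Helper18.PM
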