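import Pool.Agent.Helper75.PM.Stm2

/-! # The union bound for the bad set -/

set_option autoImplicit false

open Complex Filter Topology MeasureTheory

namespace Pool.Agent.Helper18.PM

open Pool.Agent.Helper75.PM
open Pool.Agent.Helper85.LG (Lm G xi)

theorem meas2 (hC : S_cone) : S_meas2 := by
  classical
  intro A B hA hAB
  have hfin := (isCompact_closedBall (0 : ℂ) (B + 3)).inter_riemannZetaZeros_finite
  obtain ⟨Z, hZ⟩ : ∃ Z : Finset ℂ, Z = hfin.toFinset.filter fun ρ =>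
    riemannZeta ρ = 0 ∧ 1 / 2 < ρ.re ∧ ρ.re < 1 ∧ A - 1 ≤ ρ.im ∧ ρ.im ≤ B + 1 := ⟨_, rfl⟩
  have hmem : ∀ ρ ∈ Z, riemannZeta ρ = 0 ∧ 1 / 2 < ρ.re ∧ ρ.re < 1 ∧ A - 1 ≤ ρ.im ∧
      ρ.im ≤ B + 1 := by
    intro ρ hρ
    rw [hZ, Finset.mem_filter] at hρ
    exact hρ.2
  refine ⟨Z, hmem, ?_⟩
  have hsub : {x : ℝ | A ≤ x ∧ x ≤ B ∧ ∃ m : ℕ, Lm x m < 0} ⊆
      ⋃ ρ ∈ Z, Set.Ioo (ρ.im - (ρ.re - 1 / 2)) (ρ.im + (ρ.re - 1 / 2)) := by
    rintro x ⟨h1, h2, m, hm⟩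
    have h3 : ¬ ∀ ρ : ℂ, riemannZeta ρ = 0 → 1 / 2 < ρ.re → ρ.re < 1 →
        |ρ.re - 1 / 2| ≤ |ρ.im - x| := by
      intro h
      exact absurd (hC x h m) (not_le.2 hm)
    push Not at h3
    obtain ⟨ρ, hρ0, hρ1, hρ2, hρ3⟩ := h3
    rw [abs_of_pos (show 0 < ρ.re - 1 / 2 by linarith), abs_lt] at hρ3
    obtain ⟨h4, h5⟩ := hρ3
    have h6 : ρ ∈ Z := by
      rw [hZ, Finset.mem_filter, Set.Finite.mem_toFinset]
      refine ⟨⟨?_, ?_⟩, hρ0, hρ1, hρ2, by linarith, by linarith⟩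
      · rw [Metric.mem_closedBall, dist_zero_right]
        refine (Complex.norm_le_abs_re_add_abs_im ρ).trans ?_
        rw [abs_of_pos (show 0 < ρ.re by linarith), abs_of_pos (show 0 < ρ.im by linarith)]
        linarith
      · rw [mem_riemannZetaZeros]
        exact hρ0
    rw [Set.mem_iUnion₂]
    exact ⟨ρ, h6, by linarith, by linarith⟩
  refine (measure_mono hsub).trans ((measure_biUnion_finset_le _ _).trans ?_)
  rw [ENNReal.ofReal_sum_of_nonneg fun ρ hρ => by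
    have := (hmem ρ hρ).2.1
    linarith]
  refine Finset.sum_le_sum fun ρ _ => ?_
  rw [Real.volume_Ioo]
  apply le_of_eq
  congr 1
  ring

theorem meas (hC : S_cone) : S_meas := by
  intro T hT
  exact meas2 hC T (2 * T) (by linarith) (by linarith)

end Pool.Agent.Helper18.PM
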